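import Mathlib

/-!
# Embeddings of algebraic extensions into the algebraic closure of the `p`-adic numbers

If `d` does not divide the degree of `K / L` and `L` is embedded into `ℚ_p`, then `K` can be
embedded into an extension of `ℚ_p` without elements of norm `p ^ (-1 / d)`.
-/

set_option autoImplicit false

namespace Pool.Agent.Helper86.AP

open Polynomial

theorem exists_factor {F : Type*} [Field F] (q : F[X]) (hq : q.Monic) (d : ℕ)
    (hd : ¬ d ∣ q.natDegree) : ∃ g : F[X], Irreducible g ∧ g ∣ q ∧ ¬ d ∣ g.natDegree := by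
  classical
  by_contra hcon
  push Not at hcon
  apply hd
  have h1 := UniqueFactorizationMonoid.prod_normalizedFactors_eq hq.ne_zero
  rw [hq.normalize_eq_self] at h1
  rw [← h1, natDegree_multiset_prod]
  · refine Multiset.dvd_sum fun x hx => ?_
    obtain ⟨g, hg, rfl⟩ := Multiset.mem_map.1 hx
    exact hcon g (UniqueFactorizationMonoid.irreducible_of_normalized_factor g hg)
      (UniqueFactorizationMonoid.dvd_of_mem_normalizedFactors hg)
  · exact UniqueFactorizationMonoid.zero_notMem_normalizedFactors q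

/-- The norms of the elements of an extension of degree `n`. -/
theorem norm_ne_of_finrank (p : ℕ) [hp : Fact p.Prime] (E : IntermediateField ℚ_[p] (PadicAlgCl p))
    [FiniteDimensional ℚ_[p] E] (d : ℕ) (hd : ¬ d ∣ Module.finrank ℚ_[p] E)
    (x : PadicAlgCl p) (hx : x ∈ E) : (p : ℝ) * ‖x‖ ^ d ≠ 1 := by
  intro h
  have hp1 : (1 : ℝ) < p := by exact_mod_cast hp.out.one_lt
  have hp0 : (0 : ℝ) < p := zero_lt_one.trans hp1
  have hn0 : 0 < Module.finrank ℚ_[p] E := Module.finrank_pos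
  have hx0 : x ≠ 0 := by
    rintro rfl
    rw [norm_zero] at h
    rcases Nat.eq_zero_or_pos d with h0 | h0
    · rw [h0, pow_zero, mul_one] at h
      linarith
    · rw [zero_pow (by omega), mul_zero] at h
      exact zero_ne_one h
  have hint : IsIntegral ℚ_[p] x := (PadicAlgCl.isAlgebraic p).isAlgebraic x |>.isIntegral
  set k := (minpoly ℚ_[p] x).natDegree with hk
  have hk0 : 0 < k := minpoly.natDegree_pos hint
  have hkn : k ∣ Module.finrank ℚ_[p] E := by
    have h1 : minpoly ℚ_[p] (⟨x, hx⟩ : E) = minpoly ℚ_[p] x :=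
      (minpoly.algebraMap_eq (algebraMap E (PadicAlgCl p)).injective (⟨x, hx⟩ : E)).symm
    rw [hk, ← h1]
    exact minpoly.degree_dvd (Algebra.IsIntegral.isIntegral _)
  obtain ⟨j, hj⟩ := hkn
  set c := (minpoly ℚ_[p] x).coeff 0 with hc
  have hc0 : c ≠ 0 := minpoly.coeff_zero_ne_zero hint hx0
  have hnorm : ‖x‖ ^ k = ‖c‖ := by
    have h1 : ‖x‖ = ‖c‖ ^ (1 / (k : ℝ)) :=
      spectralNorm.spectralNorm_eq_norm_coeff_zero_rpow ℚ_[p] (PadicAlgCl p) x
    rw [h1, ← Real.rpow_natCast, ← Real.rpow_mul (norm_nonneg _), one_div,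
      inv_mul_cancel₀ (by exact_mod_cast hk0.ne'), Real.rpow_one]
  have h1 : (p : ℝ) ^ Module.finrank ℚ_[p] E * ‖c‖ ^ (d * j) = 1 := by
    rw [← hnorm, ← pow_mul, show k * (d * j) = d * (k * j) by ring, ← hj, pow_mul, ← mul_pow, h,
      one_pow]
  rw [Padic.norm_eq_zpow_neg_valuation hc0, ← zpow_natCast, ← zpow_natCast, ← zpow_mul,
    ← zpow_add₀ hp0.ne'] at h1
  have h2 : (Module.finrank ℚ_[p] E : ℤ) + -c.valuation * ((d * j : ℕ) : ℤ) = 0 :=
    (zpow_eq_one_iff_right₀ hp0.le hp1.ne').1 h1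
  apply hd
  have h3 : (d : ℤ) ∣ (Module.finrank ℚ_[p] E : ℤ) := by
    refine ⟨c.valuation * j, ?_⟩
    push_cast at h2
    linear_combination h2
  exact_mod_cast h3

/-- **The embedding.** -/
theorem exists_emb (p : ℕ) [hp : Fact p.Prime] {L K : Type*} [Field L] [Field K] [CharZero L]
    [Algebra L K] [FiniteDimensional L K] (e' : L →+* ℚ_[p]) (d : ℕ)
    (hd : ¬ d ∣ Module.finrank L K) :
    ∃ (τ : K →+* PadicAlgCl p) (E : IntermediateField ℚ_[p] (PadicAlgCl p)),
      (∀ x, τ (algebraMap L K x) = algebraMap ℚ_[p] (PadicAlgCl p) (e' x)) ∧ (∀ x, τ x ∈ E) ∧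
        ∀ x ∈ E, (p : ℝ) * ‖x‖ ^ d ≠ 1 := by
  classical
  set pb := Field.powerBasisOfFiniteOfSeparable L K with hpb
  set θ := pb.gen with hθ
  have hθi : IsIntegral L θ := Algebra.IsIntegral.isIntegral θ
  set μ := minpoly L θ with hμ
  have hμd : μ.natDegree = Module.finrank L K := by
    rw [hμ, hθ, pb.natDegree_minpoly, pb.finrank]
  set q : ℚ_[p][X] := μ.map e' with hq
  have hqm : q.Monic := (minpoly.monic hθi).map e'
  have hqd : q.natDegree = Module.finrank L K := by
    rw [hq, natDegree_map, hμd]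
  obtain ⟨g, hg, hgq, hgd⟩ := exists_factor q hqm d (by rwa [hqd])
  have hg0 : g.degree ≠ 0 := hg.degree_pos.ne'
  obtain ⟨β, hβ⟩ := IsAlgClosed.exists_aeval_eq_zero (PadicAlgCl p) g hg0
  have hβi : IsIntegral ℚ_[p] β := (PadicAlgCl.isAlgebraic p).isAlgebraic β |>.isIntegral
  have hβd : (minpoly ℚ_[p] β).natDegree = g.natDegree := by
    rw [← minpoly.eq_of_irreducible hg hβ, natDegree_mul_C]
    exact inv_ne_zero (leadingCoeff_ne_zero.2 hg.ne_zero)
  set E : IntermediateField ℚ_[p] (PadicAlgCl p) := IntermediateField.adjoin ℚ_[p] {β} with hE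
  have : FiniteDimensional ℚ_[p] E := IntermediateField.adjoin.finiteDimensional hβi
  have hEd : Module.finrank ℚ_[p] E = g.natDegree := by
    rw [hE, IntermediateField.adjoin.finrank hβi, hβd]
  let _ : Algebra L (PadicAlgCl p) := ((algebraMap ℚ_[p] (PadicAlgCl p)).comp e').toAlgebra
  have halg : ∀ x : L, algebraMap L (PadicAlgCl p) x = algebraMap ℚ_[p] (PadicAlgCl p) (e' x) :=
    fun x => rfl
  have hroot : aeval β (minpoly L pb.gen) = 0 := by
    have h1 : aeval β q = 0 := by
      obtain ⟨r, hr⟩ := hgq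
      rw [hr, map_mul, hβ, zero_mul]
    rw [hq, aeval_def, eval₂_map] at h1
    rw [aeval_def]
    exact h1
  set τ : K →ₐ[L] PadicAlgCl p := pb.lift β hroot with hτ
  refine ⟨τ.toRingHom, E, fun x => ?_, fun x => ?_, fun x hx => ?_⟩
  · change τ (algebraMap L K x) = _
    rw [τ.commutes, halg]
  · change τ x ∈ E
    obtain ⟨f, hf⟩ := pb.exists_eq_aeval' x
    rw [hf, ← aeval_algHom_apply, hτ, pb.lift_gen, aeval_def, eval₂_eq_sum_range]
    refine sum_mem fun i _ => mul_mem ?_ (pow_mem ?_ i)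
    · rw [halg]
      exact E.algebraMap_mem _
    · exact IntermediateField.mem_adjoin_simple_self _ _
  · exact norm_ne_of_finrank p E d (by rwa [hEd]) x hx

end Pool.Agent.Helper86.AP
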