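import Pool.Agent.Helper86.AP.Main
import Pool.Agent.Helper86.AP.Emb

/-!
# The trap theorem over extensions of the `p`-adic numbers: the residue field
-/

set_option autoImplicit false

namespace Pool.Agent.Helper86.AP

open Finset MvPolynomial
open Pool.Agent.Helper86.MQ (pm)
open Pool.Agent.Helper26.DV

section

variable (Ω : Type*) [NormedField Ω] [IsUltrametricDist Ω]

/-- the maximal ideal of the unit ball -/
def mx : Ideal (ball Ω) where
  carrier := {x | ‖(x : Ω)‖ < 1}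
  add_mem' {a b} ha hb := by
    rw [Set.mem_ofPred_eq] at ha hb ⊢
    exact (IsUltrametricDist.norm_add_le_max (a : Ω) b).trans_lt (max_lt ha hb)
  zero_mem' := by
    rw [Set.mem_ofPred_eq]
    change ‖(0 : Ω)‖ < 1
    rw [norm_zero]
    exact zero_lt_one
  smul_mem' a b hb := by
    rw [Set.mem_ofPred_eq] at hb ⊢
    change ‖(a : Ω) * b‖ < 1
    rw [norm_mul]
    exact mul_lt_one_of_nonneg_of_lt_one_right (ball_norm a) (norm_nonneg _) hb

theorem mem_mx {x : ball Ω} : x ∈ mx Ω ↔ ‖(x : Ω)‖ < 1 := Iff.rfl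

theorem mx_maximal : (mx Ω).IsMaximal := by
  rw [Ideal.isMaximal_iff]
  refine ⟨?_, fun J x hJ hx hxJ => ?_⟩
  · rw [mem_mx]
    change ¬ ‖(1 : Ω)‖ < 1
    rw [norm_one]
    exact lt_irrefl _
  · rw [mem_mx, not_lt] at hx
    have h1 : ‖(x : Ω)‖ = 1 := le_antisymm (ball_norm x) hx
    have h0 : (x : Ω) ≠ 0 := by
      intro h
      rw [h, norm_zero] at h1
      exact zero_ne_one h1
    have h2 : ‖(x : Ω)⁻¹‖ ≤ 1 := by rw [norm_inv, h1, inv_one]
    have h3 : (⟨(x : Ω)⁻¹, h2⟩ : ball Ω) * x = 1 := Subtype.ext (inv_mul_cancel₀ h0)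
    rw [← h3]
    exact J.mul_mem_left _ hxJ

/-- the residue field -/
def Res : Type _ := ball Ω ⧸ mx Ω

noncomputable instance : Field (Res Ω) :=
  haveI := mx_maximal Ω
  Ideal.Quotient.field (mx Ω)

/-- the reduction -/
noncomputable def rs : ball Ω →+* Res Ω := Ideal.Quotient.mk (mx Ω)

theorem rs_surjective : Function.Surjective (rs Ω) := Ideal.Quotient.mk_surjective

theorem rs_eq_zero (x : ball Ω) : rs Ω x = 0 ↔ ‖(x : Ω)‖ < 1 := Ideal.Quotient.eq_zero_iff_mem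

end

section

variable (p : ℕ) [hp : Fact p.Prime]

theorem cast_p_eq_zero : ((p : ℕ) : Res (PadicAlgCl p)) = 0 := by
  have h1 : rs (PadicAlgCl p) (p : ball (PadicAlgCl p)) = 0 := by
    rw [rs_eq_zero]
    have h2 : (((p : ℕ) : ball (PadicAlgCl p)) : PadicAlgCl p) =
        algebraMap ℚ_[p] (PadicAlgCl p) (p : ℚ_[p]) := by
      rw [map_natCast]
      rfl
    rw [h2, norm_algebraMap', Padic.norm_p]
    exact inv_lt_one_of_one_lt₀ (by exact_mod_cast hp.out.one_lt)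
  rwa [map_natCast] at h1

instance : CharP (Res (PadicAlgCl p)) p :=
  (CharP.charP_iff_prime_eq_zero hp.out).2 (cast_p_eq_zero p)

/-- the inclusion of the prime field -/
noncomputable def ι : ZMod p →+* Res (PadicAlgCl p) := ZMod.castHom (dvd_refl p) _

/-- The reductions of `p`-adic integers. -/
theorem rs_padicInt (z : ℤ_[p]) (y : ball (PadicAlgCl p))
    (hy : (y : PadicAlgCl p) = algebraMap ℚ_[p] (PadicAlgCl p) (z : ℚ_[p])) :
    rs (PadicAlgCl p) y = ι p (PadicInt.toZMod z) := by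
  set n : ℕ := (PadicInt.toZMod z).val with hn
  have h1 : PadicInt.toZMod (z - (n : ℤ_[p])) = 0 := by
    rw [map_sub, map_natCast, hn, ZMod.natCast_val, ZMod.cast_id, sub_self]
  have h2 : ‖((z - (n : ℤ_[p]) : ℤ_[p]) : ℚ_[p])‖ < 1 := by
    have h3 : z - (n : ℤ_[p]) ∈ RingHom.ker (PadicInt.toZMod (p := p)) := h1
    rw [PadicInt.ker_toZMod, PadicInt.maximalIdeal_eq_span_p, ← pow_one (p : ℤ_[p]),
      ← PadicInt.norm_le_pow_iff_mem_span_pow] at h3
    refine lt_of_le_of_lt h3 ?_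
    have h4 : (1 : ℝ) < p := by exact_mod_cast hp.out.one_lt
    rw [Nat.cast_one, zpow_neg_one]
    exact inv_lt_one_of_one_lt₀ h4
  have h3 : rs (PadicAlgCl p) (y - (n : ball (PadicAlgCl p))) = 0 := by
    rw [rs_eq_zero]
    have h4 : ((y - (n : ball (PadicAlgCl p)) : ball (PadicAlgCl p)) : PadicAlgCl p) =
        algebraMap ℚ_[p] (PadicAlgCl p) ((z - (n : ℤ_[p]) : ℤ_[p]) : ℚ_[p]) := by
      rw [PadicInt.coe_sub, PadicInt.coe_natCast, map_sub, ← hy, map_natCast]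
      rfl
    rw [h4, norm_algebraMap']
    exact h2
  rw [map_sub, sub_eq_zero, map_natCast] at h3
  rw [h3, ← map_natCast (ι p), hn, ZMod.natCast_val, ZMod.cast_id]

variable {p} {m : ℕ} {w : Fin (m + 1) → ℕ}

/-- the map over the algebraic closure -/
noncomputable def up (p : ℕ) [Fact p.Prime]
    (Φ : Fin (m + 1) → MvPolynomial (Fin (m + 1)) ℚ_[p]) :
    Fin (m + 1) → MvPolynomial (Fin (m + 1)) (PadicAlgCl p) :=
  fun i => MvPolynomial.map (algebraMap ℚ_[p] (PadicAlgCl p)) (Φ i)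

theorem epre_of_vpre {Φ : Fin (m + 1) → MvPolynomial (Fin (m + 1)) ℚ_[p]} (hΦ : VPre p m w Φ) :
    EPre (p : ℝ) w (up p Φ) where
  deg i := (Finset.sup_mono (support_map_subset _ _)).trans (hΦ.deg i)
  one := by
    rw [up, coeff_map, norm_algebraMap']
    exact hΦ.one
  int i s h := by
    rw [up, coeff_map, norm_algebraMap']
    exact hΦ.int i s h

theorem ered_of_vred {Φ : Fin (m + 1) → MvPolynomial (Fin (m + 1)) ℚ_[p]} {c : VIdx m w → ZMod p}
    (hc : VRed Φ c) : ERed (rs (PadicAlgCl p)) (up p Φ) (fun k : VIdx m w => ι p (c k)) := by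
  intro k hk
  obtain ⟨z, hz1, hz2⟩ := hc k hk
  have h1 : ‖algebraMap ℚ_[p] (PadicAlgCl p) (z : ℚ_[p])‖ ≤ 1 := by
    rw [norm_algebraMap']
    exact PadicInt.norm_le_one z
  refine ⟨⟨algebraMap ℚ_[p] (PadicAlgCl p) (z : ℚ_[p]), h1⟩, ?_, ?_⟩
  · rw [up, coeff_map, ← hz1]
  · rw [rs_padicInt p z _ rfl, hz2]

/-- **The trap theorem** for the points of an extension `E` of `ℚ_p` in the algebraic closure. -/
theorem trap_alg (hw : ∀ i : Fin m, 1 ≤ w i.castSucc ∧ w i.castSucc < w (Fin.last m))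
    (hd : 1 ≤ w (Fin.last m)) {Φ : Fin (m + 1) → MvPolynomial (Fin (m + 1)) ℚ_[p]}
    (hΦ : VPre p m w Φ) {c : VIdx m w → ZMod p} (hc : VRed Φ c)
    (E : IntermediateField ℚ_[p] (PadicAlgCl p))
    (hEP : ∀ x ∈ E, (p : ℝ) * ‖x‖ ^ w (Fin.last m) ≠ 1) {T : ℕ}
    (h1 : V1b (fun k : VIdx m w => ι p (c k)) T) (h2 : V2b (fun k : VIdx m w => ι p (c k)) T) :
    ∀ n, T + 2 + (∑ i, w i + 1) * T ≤ n → ∀ x : Fin (m + 1) → PadicAlgCl p, (∀ i, x i ∈ E) →
      GE (p : ℝ) ((pm (up p Φ))^[n] x) := by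
  have hp1 : (1 : ℝ) < p := by exact_mod_cast hp.out.one_lt
  refine trap (rs_eq_zero _) (rs_surjective _) hw hd hp1 (epre_of_vpre hΦ) (ered_of_vred hc)
    E.toSubfield (fun i s => ?_) hEP h1 h2
  rw [up, coeff_map]
  exact E.algebraMap_mem _

end

end Pool.Agent.Helper86.AP
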