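import Pool.Agent.Helper86.AP.Steps

/-!
# The trap theorem over extensions of the `p`-adic numbers
-/

set_option autoImplicit false

namespace Pool.Agent.Helper86.AP

open Finset MvPolynomial
open Pool.Agent.Helper86.MQ (pm)
open Pool.Agent.Helper26.DV
open Pool.Agent.Helper86.DV (eval_vP eval_vF IsLam exists_isLam eval_vF_zero)

variable {m : ℕ} {w : Fin (m + 1) → ℕ} {Ω : Type*} [NormedField Ω] [IsUltrametricDist Ω]
variable {κ : Type*} [Field κ] {ρ : ball Ω →+* κ}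

/-- the states -/
def Good (ρ : ball Ω →+* κ) (w : Fin (m + 1) → ℕ) (E : Subfield Ω)
    (t : Ω × (Fin (m + 1) → ball Ω) × ℕ) : Prop :=
  t.1 ∈ E ∧ 1 < ‖t.1‖ ∧ (∀ i, inc t.2.1 i ∈ E) ∧ red ρ t.2.1 ≠ 0 ∧
    red ρ t.2.1 (Fin.last m) = 0 ∧ IsLam w (red ρ t.2.1) t.2.2

/-- the point of a state -/
def pt (t : Ω × (Fin (m + 1) → ball Ω) × ℕ) : Fin (m + 1) → Ω := fun j => t.1 * inc t.2.1 j

/-- Escape of large points, with a uniform bound. -/
theorem escC (hρ : ∀ x : ball Ω, ρ x = 0 ↔ ‖(x : Ω)‖ < 1) (hw : ∀ i, 1 ≤ w i)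
    (hlt : ∀ i, i ≠ Fin.last m → w i < w (Fin.last m))
    {Φ : Fin (m + 1) → MvPolynomial (Fin (m + 1)) Ω}
    {c : VIdx m w → κ} {a : VIdx m w → ball Ω} {s : Ω} {P : ℝ} {T : ℕ}
    (ha : ∀ k, ρ (a k) = c k) (hs : ‖s‖ = P) (hΦ : Dec Φ a s) (E : Subfield Ω)
    (hE : ∀ x : Fin (m + 1) → Ω, (∀ i, x i ∈ E) → ∀ i, pm Φ x i ∈ E)
    (hEP : ∀ x ∈ E, P * ‖x‖ ^ w (Fin.last m) ≠ 1)
    (h2 : V2b c T) (y : Fin (m + 1) → ball Ω) (hyE : ∀ i, inc y i ∈ E)
    (hy0 : red ρ y ≠ 0) (lam : Ω) (hlamE : lam ∈ E) (hlam : 1 < ‖lam‖) :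
    ∃ n, n ≤ (∑ i, w i + 1) * T ∧ WE ((pm Φ)^[n] (fun j => lam * inc y j)) := by
  classical
  by_contra hcon
  push Not at hcon
  -- one step
  have hstep : ∀ t : Ω × (Fin (m + 1) → ball Ω) × ℕ, ∃ t' : Ω × (Fin (m + 1) → ball Ω) × ℕ,
      Good ρ w E t → ¬ WE (pm Φ (pt t)) → Good ρ w E t' ∧ pm Φ (pt t) = pt t' ∧
        t.2.2 ≤ t'.2.2 ∧ (t'.2.2 = t.2.2 → Rel c t.2.2 (red ρ t.2.1) (red ρ t'.2.1)) := by
    intro t
    by_cases hg : Good ρ w E t ∧ ¬ WE (pm Φ (pt t))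
    · obtain ⟨⟨g1, g2, g3, g4, g5, g6⟩, hno⟩ := hg
      obtain ⟨lam', y', l', q1, q2, q3, q4, q5, q6, q7, q8, q9⟩ :=
        stepC hρ hw hlt ha hs hΦ E hE hEP h2 t.2.1 g3 g4 g5 t.1 g1 g2 hno g6
      exact ⟨⟨lam', y', l'⟩, fun _ _ => ⟨⟨q1, q2, q3, q4, q5, q7⟩, q6, q8, q9⟩⟩
    · exact ⟨t, fun h3 h4 => absurd ⟨h3, h4⟩ hg⟩
  choose nx hnx using hstep
  have hyN : red ρ y (Fin.last m) = 0 := by
    by_contra h0
    refine hcon 0 (Nat.zero_le _) ?_
    have h1 := eq_one_of_red hρ h0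
    have h3 : ‖inc y (Fin.last m)‖ = 1 := h1
    refine ⟨?_, fun i => ?_⟩
    · change 1 < ‖lam * inc y (Fin.last m)‖
      rw [norm_mul, h3, mul_one]
      exact hlam
    · change ‖lam * inc y i‖ ≤ ‖lam * inc y (Fin.last m)‖
      rw [norm_mul, norm_mul, h3]
      exact mul_le_mul_of_nonneg_left (ball_norm _) (norm_nonneg _)
  obtain ⟨l, hl⟩ := exists_isLam w hy0
  set M := (∑ i, w i + 1) * T with hM
  set t₀ : Ω × (Fin (m + 1) → ball Ω) × ℕ := ⟨lam, y, l⟩ with ht₀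
  set S : ℕ → Ω × (Fin (m + 1) → ball Ω) × ℕ := fun n => nx^[n] t₀ with hSdef
  have hS : ∀ n, S (n + 1) = nx (S n) := fun n => Function.iterate_succ_apply' _ _ _
  have hgood : ∀ n, n ≤ M → Good ρ w E (S n) ∧ pt (S n) = (pm Φ)^[n] (pt t₀) := by
    intro n
    induction n with
    | zero => intro _; exact ⟨⟨hlamE, hlam, hyE, hy0, hyN, hl⟩, rfl⟩
    | succ n ih =>
      intro hn
      obtain ⟨h3, h4⟩ := ih (by omega)
      have h5 : ¬ WE (pm Φ (pt (S n))) := by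
        rw [h4, ← Function.iterate_succ_apply' (pm Φ)]
        exact hcon _ hn
      obtain ⟨h6, h7, -, -⟩ := hnx (S n) h3 h5
      rw [hS]
      refine ⟨h6, ?_⟩
      rw [← h7, h4, Function.iterate_succ_apply']
  have hstep' : ∀ n, n < M → (S n).2.2 ≤ (S (n + 1)).2.2 ∧
      ((S (n + 1)).2.2 = (S n).2.2 →
        Rel c (S n).2.2 (red ρ (S n).2.1) (red ρ (S (n + 1)).2.1)) := by
    intro n hn
    obtain ⟨h3, h4⟩ := hgood n hn.le
    have h5 : ¬ WE (pm Φ (pt (S n))) := by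
      rw [h4, ← Function.iterate_succ_apply' (pm Φ)]
      exact hcon _ hn
    obtain ⟨-, -, h8, h9⟩ := hnx (S n) h3 h5
    rw [hS]
    exact ⟨h8, h9⟩
  have hbdd : ∀ n, n ≤ M → (S n).2.2 < ∑ i, w i + 1 := by
    intro n hn
    obtain ⟨i, -, hi⟩ := (hgood n hn).1.2.2.2.2.2.1
    rw [← hi]
    have := Finset.single_le_sum (f := w) (fun _ _ => Nat.zero_le _) (Finset.mem_univ i)
    omega
  have hmono : ∀ a b : ℕ, a + b ≤ M → (S a).2.2 ≤ (S (a + b)).2.2 := by
    intro a b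
    induction b with
    | zero => intro _; exact le_rfl
    | succ b ih =>
      intro hb
      exact (ih (by omega)).trans (hstep' (a + b) (by omega)).1
  -- a block of `T` steps with constant level
  obtain ⟨j, hj, hjl⟩ : ∃ j, (j + 1) * T ≤ M ∧ (S ((j + 1) * T)).2.2 = (S (j * T)).2.2 := by
    by_contra hno
    push Not at hno
    have h3 : ∀ j, j ≤ ∑ i, w i + 1 → j ≤ (S (j * T)).2.2 := by
      intro j
      induction j with
      | zero => intro _; exact Nat.zero_le _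
      | succ j ih =>
        intro hj
        have h4 := ih (by omega)
        have h5 : (j + 1) * T ≤ M := Nat.mul_le_mul_right T hj
        have h6 := hno j h5
        have h7 := hmono (j * T) T (by rw [← Nat.succ_mul]; exact h5)
        rw [← Nat.succ_mul] at h7
        have h8 : (S (j * T)).2.2 ≤ (S ((j + 1) * T)).2.2 := h7
        omega
    have h4 := h3 (∑ i, w i + 1) le_rfl
    have h5 := hbdd M le_rfl
    rw [hM] at h5
    omega
  set A := j * T with hA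
  have hAT : A + T ≤ M := by rw [hA, ← Nat.succ_mul]; exact hj
  have hconst : ∀ k, k ≤ T → (S (A + k)).2.2 = (S A).2.2 := by
    intro k hk
    have h3 := hmono A k (by omega)
    have h4 := hmono (A + k) (T - k) (by omega)
    rw [show A + k + (T - k) = A + T by omega] at h4
    have h5 : (S (A + T)).2.2 = (S A).2.2 := by
      have h6 : A + T = (j + 1) * T := by rw [hA, ← Nat.succ_mul]
      rw [h6]
      exact hjl
    omega
  have h3 := h2 (S A).2.2 (fun n => red ρ (S (A + n)).2.1) (by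
    intro n hn
    have h4 := hconst n hn.le
    have h5 := hconst (n + 1) hn
    have h6 := (hstep' (A + n) (by omega)).2 (by
      rw [h4]
      exact h5)
    rw [h4] at h6
    exact h6)
  exact (hgood A (by omega)).1.2.2.2.1 h3

/-- **The trap theorem.** -/
theorem trap (hρ : ∀ x : ball Ω, ρ x = 0 ↔ ‖(x : Ω)‖ < 1) (hsur : Function.Surjective ρ)
    (hw : ∀ i : Fin m, 1 ≤ w i.castSucc ∧ w i.castSucc < w (Fin.last m))
    (hd : 1 ≤ w (Fin.last m)) {P : ℝ} (hP : 1 < P)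
    {Φ : Fin (m + 1) → MvPolynomial (Fin (m + 1)) Ω} (hΦ : EPre P w Φ)
    {c : VIdx m w → κ} (hc : ERed ρ Φ c) (E : Subfield Ω)
    (hE : ∀ i s, coeff s (Φ i) ∈ E) (hEP : ∀ x ∈ E, P * ‖x‖ ^ w (Fin.last m) ≠ 1) {T : ℕ}
    (h1 : V1b c T) (h2 : V2b c T) :
    ∀ n, T + 2 + (∑ i, w i + 1) * T ≤ n → ∀ x : Fin (m + 1) → Ω, (∀ i, x i ∈ E) →
      GE P ((pm Φ)^[n] x) := by
  classical
  have hw1 : ∀ i, 1 ≤ w i := by
    intro i
    refine Fin.lastCases hd (fun i => (hw i).1) i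
  have hlt : ∀ i, i ≠ Fin.last m → w i < w (Fin.last m) := by
    intro i
    refine Fin.lastCases (fun h => absurd rfl h) (fun i _ => (hw i).2) i
  have hle : ∀ i, w i ≤ w (Fin.last m) := by
    intro i
    by_cases hi : i = Fin.last m
    · rw [hi]
    · exact (hlt i hi).le
  obtain ⟨a, s, ha, hs, hΦx⟩ := exists_lift hP hsur hΦ hc
  have hEΦ : ∀ x : Fin (m + 1) → Ω, (∀ i, x i ∈ E) → ∀ i, pm Φ x i ∈ E := by
    intro x hx i
    rw [pm, eval_eq']
    exact sum_mem fun s _ => mul_mem (hE i s) (prod_mem fun j _ => pow_mem (hx j) _)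
  have hstep : ∀ (x : Fin (m + 1) → Ω) (n k : ℕ), WE ((pm Φ)^[n] x) →
      GE P ((pm Φ)^[n + (k + 1)] x) ∧ WE ((pm Φ)^[n + (k + 1)] x) := by
    intro x n k hx
    induction k with
    | zero =>
      have h3 := we_step hP hle hs hΦx hx
      rw [← Function.iterate_succ_apply' (pm Φ)] at h3
      exact h3
    | succ k ih =>
      have h3 := we_step hP hle hs hΦx ih.2
      rw [← Function.iterate_succ_apply' (pm Φ)] at h3
      exact h3
  intro n hn x hx
  have hex : ∃ k, k ≤ T + 1 + (∑ i, w i + 1) * T ∧ WE ((pm Φ)^[k] x) := by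
    obtain ⟨j, hj⟩ := exists_max_norm x
    by_cases hj1 : ‖x j‖ ≤ 1
    · set y : Fin (m + 1) → ball Ω := fun i => ⟨x i, (hj i).trans hj1⟩ with hy
      have hxy : x = inc y := rfl
      have h3 : ∃ k, k ≤ T ∧ (pm (vP c))^[k] (red ρ y) (Fin.last m) ≠ 0 := by
        by_cases h0 : red ρ y (Fin.last m) = 0
        · exact h1 _ h0
        · exact ⟨0, Nat.zero_le _, h0⟩
      obtain ⟨k, hkT, hk⟩ := h3
      obtain ⟨n, hn1, hn2⟩ := escA hρ hP hle ha hs hΦx (E : Set Ω) hEΦ hEP k y hx hk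
      rw [hxy]
      exact ⟨n, by omega, hn2⟩
    · push Not at hj1
      have hR0 : 0 < ‖x j‖ := by linarith
      have hxj : x j ≠ 0 := norm_pos_iff.1 hR0
      set y : Fin (m + 1) → ball Ω := fun i => ⟨x i / x j, by
        rw [mem_ball, norm_div]
        exact (div_le_one hR0).2 (hj i)⟩ with hy
      have hxy : x = fun i => x j * inc y i := by
        funext i
        simp only [hy, inc]
        field_simp
      have hyj : y j = 1 := Subtype.ext (div_self hxj)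
      have hy0 : red ρ y ≠ 0 := by
        intro h
        have h3 := congrFun h j
        simp only [red] at h3
        rw [hyj, map_one] at h3
        exact one_ne_zero h3
      obtain ⟨n, hn1, hn2⟩ := escC hρ hw1 hlt ha hs hΦx E hEΦ hEP h2 y
        (fun i => E.div_mem (hx i) (hx j)) hy0 (x j) (hx j) hj1
      rw [← hxy] at hn2
      exact ⟨n, by omega, hn2⟩
  obtain ⟨k, hk1, hk2⟩ := hex
  have h3 := (hstep x k (n - k - 1) hk2).1
  rwa [show k + (n - k - 1 + 1) = n by omega] at h3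

end Pool.Agent.Helper86.AP
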