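import Pool.Agent.Helper86.AP.Trap

/-!
# The trap theorem over extensions of the `p`-adic numbers: steps
-/

set_option autoImplicit false

namespace Pool.Agent.Helper86.AP

open Finset MvPolynomial
open Pool.Agent.Helper86.MQ (pm)
open Pool.Agent.Helper26.DV
open Pool.Agent.Helper86.DV (eval_vP eval_vF IsLam exists_isLam eval_vF_zero)

variable {m : ℕ} {w : Fin (m + 1) → ℕ} {Ω : Type*} [NormedField Ω] [IsUltrametricDist Ω]
variable {κ : Type*} [Field κ] {ρ : ball Ω →+* κ}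

/-- Escape of integral points. -/
theorem escA (hρ : ∀ x : ball Ω, ρ x = 0 ↔ ‖(x : Ω)‖ < 1)
    {Φ : Fin (m + 1) → MvPolynomial (Fin (m + 1)) Ω}
    {c : VIdx m w → κ} {a : VIdx m w → ball Ω} {s : Ω} {P : ℝ} (hP : 1 < P)
    (hlt : ∀ i, w i ≤ w (Fin.last m))
    (ha : ∀ k, ρ (a k) = c k) (hs : ‖s‖ = P) (hΦ : Dec Φ a s) (E : Set Ω)
    (hE : ∀ x : Fin (m + 1) → Ω, (∀ i, x i ∈ E) → ∀ i, pm Φ x i ∈ E)
    (hEP : ∀ x ∈ E, P * ‖x‖ ^ w (Fin.last m) ≠ 1) (k : ℕ) : ∀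
    (y : Fin (m + 1) → ball Ω) (_ : ∀ i, inc y i ∈ E)
    (_ : (pm (vP c))^[k] (red ρ y) (Fin.last m) ≠ 0),
    ∃ n, n ≤ k + 1 ∧ WE ((pm Φ)^[n] (inc y)) := by
  have hbig : ∀ y : Fin (m + 1) → ball Ω, 1 < P * ‖(y (Fin.last m) : Ω)‖ ^ w (Fin.last m) →
      WE (pm Φ (inc y)) := by
    intro y hy
    have h1 := big_special hlt hs hΦ 1 (by rw [norm_one]) y hy
    simp only [one_mul] at h1
    exact h1
  induction k with
  | zero =>
    intro y _ hy
    refine ⟨1, le_rfl, hbig y ?_⟩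
    rw [eq_one_of_red hρ hy, one_pow, mul_one]
    exact hP
  | succ k ih =>
    intro y hyE hy
    rcases lt_or_gt_of_ne (hEP _ (hyE (Fin.last m))) with h0 | h0
    · obtain ⟨y', h1, h2⟩ := stepA hρ ha hs hΦ y h0
      rw [Function.iterate_succ_apply, ← h2] at hy
      obtain ⟨n, hnk, hn⟩ := ih y' (by rw [← h1]; exact hE _ hyE) hy
      refine ⟨n + 1, by omega, ?_⟩
      rw [Function.iterate_succ_apply, h1]
      exact hn
    · exact ⟨1, by omega, hbig y h0⟩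

/-- One step at a large point: the form of the values. -/
theorem stepB (hρ : ∀ x : ball Ω, ρ x = 0 ↔ ‖(x : Ω)‖ < 1)
    {Φ : Fin (m + 1) → MvPolynomial (Fin (m + 1)) Ω}
    {c : VIdx m w → κ} {a : VIdx m w → ball Ω} {s : Ω} {P : ℝ}
    (ha : ∀ k, ρ (a k) = c k) (hs : ‖s‖ = P) (hΦ : Dec Φ a s)
    (y : Fin (m + 1) → ball Ω) (hy : P * ‖(y (Fin.last m) : Ω)‖ ^ w (Fin.last m) < 1)
    (lam : Ω) (hlam : 1 < ‖lam‖) :
    ∃ W : Fin (m + 1) → ball Ω,
      (∀ i, pm Φ (fun j => lam * inc y j) i = lam ^ w i * ((W i : ball Ω) : Ω)) ∧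
      red ρ W = pm (vF c) (red ρ y) := by
  have hz : ‖s * (y (Fin.last m) : Ω) ^ w (Fin.last m)‖ < 1 := by
    rw [norm_mul, norm_pow, hs]
    exact hy
  set z : ball Ω := ⟨s * (y (Fin.last m) : Ω) ^ w (Fin.last m), hz.le⟩ with hzdef
  have hz2 : ρ z = 0 := (hρ z).2 hz
  have hlam0 : lam ≠ 0 := by
    intro h
    rw [h, norm_zero] at hlam
    linarith
  have hli : ‖lam⁻¹‖ < 1 := by
    rw [norm_inv]
    exact inv_lt_one_of_one_lt₀ hlam
  set u : ball Ω := ⟨lam⁻¹, hli.le⟩ with hu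
  have hu0 : ρ u = 0 := (hρ u).2 hli
  refine ⟨fun i => (∑ t : {s : Fin (m + 1) →₀ ℕ // s.degree ≤ w i},
    a ⟨i, t⟩ * (u ^ (w i - (t : Fin (m + 1) →₀ ℕ).degree) *
      ∏ j, y j ^ (t : Fin (m + 1) →₀ ℕ) j)) + if i = Fin.last m then z else 0, ?_, ?_⟩
  · intro i
    rw [hΦ]
    rw [Subring.coe_add, mul_add]
    congr 1
    · push_cast
      rw [Finset.mul_sum]
      refine Finset.sum_congr rfl fun t _ => ?_
      have h3 : ∏ j, (lam * inc y j) ^ (t : Fin (m + 1) →₀ ℕ) j =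
          lam ^ (t : Fin (m + 1) →₀ ℕ).degree *
            ∏ j, inc y j ^ (t : Fin (m + 1) →₀ ℕ) j := by
        simp only [mul_pow]
        rw [Finset.prod_mul_distrib, Finset.prod_pow_eq_pow_sum, ← Finsupp.degree_eq_sum]
      rw [h3]
      have h4 : ∀ n k : ℕ, k ≤ n → lam ^ n * (u : Ω) ^ (n - k) = lam ^ k := by
        intro n k hk
        obtain ⟨q, rfl⟩ := Nat.exists_eq_add_of_le hk
        rw [Nat.add_sub_cancel_left, pow_add, mul_assoc, ← mul_pow]
        simp only [hu]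
        rw [mul_inv_cancel₀ hlam0, one_pow, mul_one]
      have h5 : lam ^ w i * (u : Ω) ^ (w i - (t : Fin (m + 1) →₀ ℕ).degree) =
          lam ^ (t : Fin (m + 1) →₀ ℕ).degree := h4 _ _ t.2
      rw [← h5]
      simp only [inc]
      ring
    · split_ifs with hi
      · subst hi
        simp only [hzdef, inc]
        rw [mul_pow]
        ring
      · simp
  · funext i
    simp only [red]
    rw [map_add, map_sum, pm, eval_vF]
    have h1 : ρ (if i = Fin.last m then z else 0) = 0 := by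
      split_ifs
      · exact hz2
      · exact map_zero _
    rw [h1, add_zero]
    refine Finset.sum_congr rfl fun t _ => ?_
    rw [map_mul, ha, map_mul, map_pow, map_prod, hu0]
    split_ifs with h2
    · rw [h2, Nat.sub_self, pow_zero, one_mul]
      simp only [map_pow, red]
    · have h3 : w i - (t : Fin (m + 1) →₀ ℕ).degree ≠ 0 := by
        have := t.2
        omega
      rw [zero_pow h3]
      ring

omit [IsUltrametricDist Ω] in
/-- The maximum of the norms, as the norm of a coordinate. -/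
theorem exists_max_norm (x : Fin (m + 1) → Ω) : ∃ j, ∀ i, ‖x i‖ ≤ ‖x j‖ := by
  obtain ⟨j, -, hj⟩ := Finset.exists_max_image univ (fun i => ‖x i‖) univ_nonempty
  exact ⟨j, fun i => hj i (Finset.mem_univ _)⟩

/-- One step at a large point which does not escape. -/
theorem stepC (hρ : ∀ x : ball Ω, ρ x = 0 ↔ ‖(x : Ω)‖ < 1) (hw : ∀ i, 1 ≤ w i)
    (hlt : ∀ i, i ≠ Fin.last m → w i < w (Fin.last m))
    {Φ : Fin (m + 1) → MvPolynomial (Fin (m + 1)) Ω}
    {c : VIdx m w → κ} {a : VIdx m w → ball Ω} {s : Ω} {P : ℝ} {T : ℕ}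
    (ha : ∀ k, ρ (a k) = c k) (hs : ‖s‖ = P) (hΦ : Dec Φ a s) (E : Subfield Ω)
    (hE : ∀ x : Fin (m + 1) → Ω, (∀ i, x i ∈ E) → ∀ i, pm Φ x i ∈ E)
    (hEP : ∀ x ∈ E, P * ‖x‖ ^ w (Fin.last m) ≠ 1)
    (h2 : V2b c T) (y : Fin (m + 1) → ball Ω) (hyE : ∀ i, inc y i ∈ E)
    (hy0 : red ρ y ≠ 0) (hy : red ρ y (Fin.last m) = 0)
    (lam : Ω) (hlamE : lam ∈ E) (hlam : 1 < ‖lam‖)
    (hne : ¬ WE (pm Φ (fun j => lam * inc y j))) {l : ℕ} (hl : IsLam w (red ρ y) l) :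
    ∃ (lam' : Ω) (y' : Fin (m + 1) → ball Ω) (l' : ℕ), lam' ∈ E ∧ 1 < ‖lam'‖ ∧
      (∀ i, inc y' i ∈ E) ∧ red ρ y' ≠ 0 ∧ red ρ y' (Fin.last m) = 0 ∧
      pm Φ (fun j => lam * inc y j) = (fun j => lam' * inc y' j) ∧
      IsLam w (red ρ y') l' ∧ l ≤ l' ∧ (l' = l → Rel c l (red ρ y) (red ρ y')) := by
  classical
  have hle : ∀ i, w i ≤ w (Fin.last m) := by
    intro i
    by_cases hi : i = Fin.last m
    · rw [hi]
    · exact (hlt i hi).le
  -- the special term is small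
  have hsmall : P * ‖(y (Fin.last m) : Ω)‖ ^ w (Fin.last m) < 1 := by
    rcases lt_or_gt_of_ne (hEP _ (hyE (Fin.last m))) with h0 | h0
    · exact h0
    · exact absurd (big_special hle hs hΦ lam hlam.le y h0) hne
  obtain ⟨W, hW, hr⟩ := stepB hρ ha hs hΦ y hsmall lam hlam
  set X := pm Φ (fun j => lam * inc y j) with hX
  have hL0 : 0 < ‖lam‖ := by linarith
  have hlam0 : lam ≠ 0 := norm_pos_iff.1 hL0
  have hXE : ∀ i, X i ∈ E := hE _ fun i => E.mul_mem hlamE (hyE i)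
  have hXn : ∀ i, ‖X i‖ = ‖lam‖ ^ w i * ‖(W i : Ω)‖ := by
    intro i
    rw [hW i, norm_mul, norm_pow]
  have hXle : ∀ i, ‖X i‖ ≤ ‖lam‖ ^ w i := by
    intro i
    rw [hXn i]
    exact mul_le_of_le_one_right (by positivity) (ball_norm _)
  have hform : ∀ i, red ρ W i = eval (red ρ y) (vF c i) := fun i => by rw [hr]; rfl
  have hXeq : ∀ i, eval (red ρ y) (vF c i) ≠ 0 → ‖X i‖ = ‖lam‖ ^ w i := by
    intro i hi
    rw [← hform i] at hi
    rw [hXn i, eq_one_of_red hρ hi, mul_one]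
  -- the last form vanishes
  have hNform : eval (red ρ y) (vF c (Fin.last m)) = 0 := by
    by_contra hcon
    have h3 := hXeq _ hcon
    apply hne
    refine ⟨?_, fun i => ?_⟩
    · rw [h3]
      exact one_lt_pow₀ hlam (by have := hw (Fin.last m); omega)
    · rw [h3]
      exact (hXle i).trans (pow_le_pow_right₀ hlam.le (hle i))
  have hV : ∀ i : Fin m, w i.castSucc < l → red ρ y i.castSucc = 0 := by
    intro i hi
    by_contra hcon
    have := hl.2 _ hcon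
    omega
  have hcs : ∀ i : Fin m, i.castSucc ≠ Fin.last m := fun i => (Fin.castSucc_lt_last i).ne
  -- some form of degree at least `l` does not vanish
  have hex : ∃ i, i ≠ Fin.last m ∧ l ≤ w i ∧ eval (red ρ y) (vF c i) ≠ 0 := by
    by_contra hcon
    push Not at hcon
    have h3 : ∀ i, i ≠ Fin.last m → l ≤ w i → eval (red ρ y) (vF c i) = 0 := hcon
    have h4 := h2 l (fun n => if n = 0 then red ρ y else 0) (by
      intro n _
      by_cases hn : n = 0
      · subst hn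
        simp only [if_pos, Nat.zero_add, one_ne_zero, if_false]
        exact ⟨⟨hy, hV⟩, ⟨rfl, fun _ _ => rfl⟩, fun i hi2 => h3 _ (hcs i) hi2.le, hNform,
          fun i hi2 => (h3 _ (hcs i) hi2.ge).symm⟩
      · simp only [if_neg hn, Nat.succ_ne_zero, if_false]
        exact ⟨⟨rfl, fun _ _ => rfl⟩, ⟨rfl, fun _ _ => rfl⟩, fun i _ => eval_vF_zero hw c _,
          eval_vF_zero hw c _, fun i _ => (eval_vF_zero hw c _).symm⟩)
    simp only [if_pos] at h4
    exact hy0 h4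
  obtain ⟨i₁, hi₁, hmax⟩ := Finset.exists_max_image
    (univ.filter fun i => i ≠ Fin.last m ∧ l ≤ w i ∧ eval (red ρ y) (vF c i) ≠ 0) w (by
      obtain ⟨i, hi⟩ := hex
      exact ⟨i, by rw [Finset.mem_filter]; exact ⟨Finset.mem_univ _, hi⟩⟩)
  rw [Finset.mem_filter] at hi₁
  obtain ⟨-, hi₁N, hi₁l, hi₁f⟩ := hi₁
  set D := w i₁ with hD
  have hE1 : ∀ i, i ≠ Fin.last m → D < w i → eval (red ρ y) (vF c i) = 0 := by
    intro i hi hDi
    by_contra hcon
    have := hmax i (by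
      rw [Finset.mem_filter]
      exact ⟨Finset.mem_univ _, hi, hi₁l.trans hDi.le, hcon⟩)
    omega
  have hbig : ‖X i₁‖ = ‖lam‖ ^ D := hXeq i₁ hi₁f
  have hbig1 : 1 < ‖X i₁‖ := by
    rw [hbig]
    exact one_lt_pow₀ hlam (by have := hw i₁; omega)
  obtain ⟨j₀, hj₀⟩ := exists_max_norm X
  have hR1 : 1 < ‖X j₀‖ := hbig1.trans_le (hj₀ i₁)
  have hR0 : 0 < ‖X j₀‖ := by linarith
  -- the scaling factor
  obtain ⟨lam', hlam'E, hlam'n, hlam'l⟩ : ∃ lam' ∈ E, ‖lam'‖ = ‖X j₀‖ ∧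
      (‖X j₀‖ = ‖lam‖ ^ D → lam' = lam ^ D) := by
    by_cases h : ‖X j₀‖ = ‖lam‖ ^ D
    · exact ⟨lam ^ D, E.pow_mem hlamE D, by rw [norm_pow, h], fun _ => rfl⟩
    · exact ⟨X j₀, hXE j₀, rfl, fun h' => absurd h' h⟩
  have hlam'0 : lam' ≠ 0 := by
    rw [← norm_pos_iff, hlam'n]
    exact hR0
  set y' : Fin (m + 1) → ball Ω := fun i => ⟨X i / lam', by
    rw [mem_ball, norm_div, hlam'n]
    exact (div_le_one hR0).2 (hj₀ i)⟩ with hy'
  have hXy : ∀ i, X i = lam' * inc y' i := by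
    intro i
    simp only [hy', inc]
    field_simp
  have hXeq' : ∀ i, red ρ y' i ≠ 0 → ‖X i‖ = ‖X j₀‖ := by
    intro i hi
    have h1 := eq_one_of_red hρ hi
    rw [hXy i, norm_mul, hlam'n]
    have h2 : ‖inc y' i‖ = 1 := h1
    rw [h2, mul_one]
  have hy'0 : red ρ y' ≠ 0 := by
    intro h
    have h1 := lt_one_of_red hρ (congrFun h j₀)
    have h2 : ‖inc y' j₀‖ < 1 := h1
    have h3 := congrArg norm (hXy j₀)
    rw [norm_mul, hlam'n] at h3
    nlinarith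
  have hy'N : red ρ y' (Fin.last m) = 0 := by
    by_contra hcon
    have h3 := hXeq' _ hcon
    apply hne
    refine ⟨by rw [h3]; exact hR1, fun i => ?_⟩
    rw [h3]
    exact hj₀ i
  have hmono : ∀ {p q : ℕ}, ‖lam‖ ^ p ≤ ‖lam‖ ^ q → p ≤ q := by
    intro p q h
    exact (pow_le_pow_iff_right₀ hlam).1 h
  have hlE : ∀ i, red ρ y' i ≠ 0 → ‖X j₀‖ ≤ ‖lam‖ ^ w i ∧ D ≤ w i := by
    intro i hi
    have h3 : ‖X j₀‖ ≤ ‖lam‖ ^ w i := by
      rw [← hXeq' i hi]
      exact hXle i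
    refine ⟨h3, hmono (le_trans ?_ h3)⟩
    rw [← hbig]
    exact hj₀ i₁
  obtain ⟨l', hl'⟩ := exists_isLam w hy'0
  refine ⟨lam', y', l', hlam'E, by rw [hlam'n]; exact hR1, fun i => ?_, hy'0, hy'N,
    funext hXy, hl', ?_, ?_⟩
  · simp only [hy', inc]
    exact E.div_mem (hXE i) hlam'E
  · obtain ⟨i, hi, hil⟩ := hl'.1
    have := (hlE i hi).2
    omega
  · intro hll
    obtain ⟨i, hi, hil⟩ := hl'.1
    have h3 := hlE i hi
    have hDl : D = l := by omega
    have hRl : ‖X j₀‖ = ‖lam‖ ^ D := by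
      refine le_antisymm ?_ ?_
      · have := h3.1
        rwa [hil, hll, ← hDl] at this
      · rw [← hbig]
        exact hj₀ i₁
    have hlam'eq := hlam'l hRl
    refine ⟨⟨hy, hV⟩, ⟨hy'N, ?_⟩, ?_, hNform, ?_⟩
    · intro j hj
      by_contra hcon
      have := (hlE _ hcon).2
      omega
    · intro j hlj
      exact hE1 _ (hcs j) (by omega)
    · intro j hjl
      have h5 : lam ^ D * (y' j.castSucc : Ω) = lam ^ D * (W j.castSucc : Ω) := by
        have h6 := hXy j.castSucc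
        rw [hW j.castSucc, hjl, hlam'eq, ← hDl] at h6
        exact h6.symm
      have h7 : (y' j.castSucc : Ω) = (W j.castSucc : Ω) :=
        mul_left_cancel₀ (pow_ne_zero _ hlam0) h5
      have h8 : y' j.castSucc = W j.castSucc := Subtype.ext h7
      rw [← hform, red, red, h8]

end Pool.Agent.Helper86.AP
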