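import Pool.Agent.Helper86.DV.Finite

/-!
# The trap theorem over extensions of the `p`-adic numbers

The points are those of a subfield `E` of an ultrametric field `Ω` without elements `x` with
`P * ‖x‖ ^ d = 1`.
-/

set_option autoImplicit false

namespace Pool.Agent.Helper86.AP

open Finset MvPolynomial
open Pool.Agent.Helper86.MQ (pm)
open Pool.Agent.Helper26.DV
open Pool.Agent.Helper86.DV (eval_vP eval_vF IsLam exists_isLam eval_vF_zero)

variable {m : ℕ} {w : Fin (m + 1) → ℕ} {Ω : Type*} [NormedField Ω] [IsUltrametricDist Ω]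
variable {κ : Type*} [Field κ]

/-- The unit ball of an ultrametric field. -/
def ball (Ω : Type*) [NormedField Ω] [IsUltrametricDist Ω] : Subring Ω where
  carrier := {x | ‖x‖ ≤ 1}
  mul_mem' {a b} ha hb := by
    rw [Set.mem_ofPred_eq] at ha hb ⊢
    rw [norm_mul]
    exact mul_le_one₀ ha (norm_nonneg _) hb
  one_mem' := by
    rw [Set.mem_ofPred_eq, norm_one]
  add_mem' {a b} ha hb := by
    rw [Set.mem_ofPred_eq] at ha hb ⊢
    exact (IsUltrametricDist.norm_add_le_max a b).trans (max_le ha hb)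
  zero_mem' := by
    rw [Set.mem_ofPred_eq, norm_zero]
    exact zero_le_one
  neg_mem' {a} ha := by
    rw [Set.mem_ofPred_eq] at ha ⊢
    rwa [norm_neg]

theorem mem_ball {x : Ω} : x ∈ ball Ω ↔ ‖x‖ ≤ 1 := Iff.rfl

theorem ball_norm (x : ball Ω) : ‖(x : Ω)‖ ≤ 1 := x.2

/-- the reduction of an integral point -/
def red (ρ : ball Ω →+* κ) (y : Fin (m + 1) → ball Ω) : Fin (m + 1) → κ := fun i => ρ (y i)

/-- the inclusion -/
def inc (y : Fin (m + 1) → ball Ω) : Fin (m + 1) → Ω := fun i => (y i : Ω)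

/-- weak escape -/
def WE (x : Fin (m + 1) → Ω) : Prop := 1 < ‖x (Fin.last m)‖ ∧ ∀ i, ‖x i‖ ≤ ‖x (Fin.last m)‖

/-- strong escape -/
def GE (P : ℝ) (x : Fin (m + 1) → Ω) : Prop :=
  P ≤ ‖x (Fin.last m)‖ ∧ ∀ i, ‖x i‖ ≤ ‖x (Fin.last m)‖

/-- The bounds of the degrees; all coefficients are integral, except for the coefficient of
`x_N ^ w_N` in the last component, which has norm `P`. -/
structure EPre (P : ℝ) (w : Fin (m + 1) → ℕ) (Φ : Fin (m + 1) → MvPolynomial (Fin (m + 1)) Ω) :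
    Prop where
  deg : ∀ i, (Φ i).totalDegree ≤ w i
  one : ‖coeff (Finsupp.single (Fin.last m) (w (Fin.last m))) (Φ (Fin.last m))‖ = P
  int : ∀ i s, ¬ (i = Fin.last m ∧ s = Finsupp.single (Fin.last m) (w (Fin.last m))) →
    ‖coeff s (Φ i)‖ ≤ 1

/-- the reductions of the coefficients, with the exception of the special one -/
def ERed (ρ : ball Ω →+* κ) (Φ : Fin (m + 1) → MvPolynomial (Fin (m + 1)) Ω)
    (c : VIdx m w → κ) : Prop :=
  ∀ k : VIdx m w, k ≠ vsp m w → ∃ z : ball Ω, (z : Ω) = coeff k.2.1 (Φ k.1) ∧ ρ z = c k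

/-- every point of the hyperplane leaves it in at most `T` steps -/
def V1b (c : VIdx m w → κ) (T : ℕ) : Prop :=
  ∀ x : Fin (m + 1) → κ, x (Fin.last m) = 0 → ∃ k, k ≤ T ∧ (pm (vP c))^[k] x (Fin.last m) ≠ 0

/-- there are no chains of `T` steps of nonzero points on any level -/
def V2b (c : VIdx m w → κ) (T : ℕ) : Prop :=
  ∀ (l : ℕ) (x : ℕ → Fin (m + 1) → κ), (∀ n, n < T → Rel c l (x n) (x (n + 1))) → x 0 = 0

theorem coe_prod_pow (y : Fin (m + 1) → ball Ω) (t : Fin (m + 1) →₀ ℕ) :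
    (((∏ j, y j ^ t j : ball Ω)) : Ω) = ∏ j, inc y j ^ t j := by
  simp only [inc]
  push_cast
  rfl

variable {ρ : ball Ω →+* κ}

theorem lt_one_of_red (hρ : ∀ x : ball Ω, ρ x = 0 ↔ ‖(x : Ω)‖ < 1) {y : ball Ω} (h : ρ y = 0) :
    ‖(y : Ω)‖ < 1 := (hρ y).1 h

theorem eq_one_of_red (hρ : ∀ x : ball Ω, ρ x = 0 ↔ ‖(x : Ω)‖ < 1) {y : ball Ω} (h : ρ y ≠ 0) :
    ‖(y : Ω)‖ = 1 :=
  le_antisymm (ball_norm y) (not_lt.1 fun h1 => h ((hρ y).2 h1))

/-- The decomposition of `Φ`. -/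
theorem exists_lift {P : ℝ} (hP : 1 < P) (hsur : Function.Surjective ρ)
    {Φ : Fin (m + 1) → MvPolynomial (Fin (m + 1)) Ω} (hΦ : EPre P w Φ)
    {c : VIdx m w → κ} (hc : ERed ρ Φ c) :
    ∃ (a : VIdx m w → ball Ω) (s : Ω), (∀ k, ρ (a k) = c k) ∧ ‖s‖ = P ∧
      ∀ x i, pm Φ x i = (∑ t : {s : Fin (m + 1) →₀ ℕ // s.degree ≤ w i},
        ((a ⟨i, t⟩ : ball Ω) : Ω) * ∏ j, x j ^ (t : Fin (m + 1) →₀ ℕ) j) +
          if i = Fin.last m then s * x (Fin.last m) ^ w (Fin.last m) else 0 := by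
  classical
  have hz : ∀ k : VIdx m w, ∃ z : ball Ω, ρ z = c k ∧
      (k ≠ vsp m w → (z : Ω) = coeff k.2.1 (Φ k.1)) := by
    intro k
    by_cases hk : k = vsp m w
    · obtain ⟨z, hz⟩ := hsur (c k)
      exact ⟨z, hz, fun h => absurd hk h⟩
    · obtain ⟨z, hz1, hz2⟩ := hc k hk
      exact ⟨z, hz2, fun _ => hz1⟩
  choose a ha1 ha2 using hz
  set s : Ω := coeff (Finsupp.single (Fin.last m) (w (Fin.last m))) (Φ (Fin.last m)) -
    (a (vsp m w) : Ω) with hs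
  have hsn : ‖s‖ = P := by
    have h1 : ‖(a (vsp m w) : Ω)‖ ≤ 1 := ball_norm _
    have h2 : ‖coeff (Finsupp.single (Fin.last m) (w (Fin.last m))) (Φ (Fin.last m))‖ ≠
        ‖-(a (vsp m w) : Ω)‖ := by
      rw [hΦ.one, norm_neg]
      exact fun h => absurd (h ▸ h1) (not_le.2 hP)
    rw [hs, sub_eq_add_neg, IsUltrametricDist.norm_add_eq_max_of_norm_ne_norm h2, hΦ.one, norm_neg]
    exact max_eq_left (h1.trans hP.le)
  refine ⟨a, s, ha1, hsn, ?_⟩
  intro x i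
  -- the array of `Φ`
  have hΦ' : Φ = vP (fun k : VIdx m w => coeff (k.2 : Fin (m + 1) →₀ ℕ) (Φ k.1)) := by
    rw [vP_coeff]
    intro i t ht
    by_contra h0
    exact ht ((le_totalDegree (mem_support_iff.2 h0)).trans (hΦ.deg i))
  have h1 : pm Φ x i = ∑ t : {s : Fin (m + 1) →₀ ℕ // s.degree ≤ w i},
      coeff (t : Fin (m + 1) →₀ ℕ) (Φ i) * ∏ j, x j ^ (t : Fin (m + 1) →₀ ℕ) j := by
    conv_lhs => rw [hΦ']
    rw [pm, eval_vP]
  rw [h1]
  by_cases hi : i = Fin.last m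
  · subst hi
    rw [if_pos rfl]
    set t₀ : {s : Fin (m + 1) →₀ ℕ // s.degree ≤ w (Fin.last m)} := (vsp m w).2 with ht₀
    rw [← Finset.add_sum_erase Finset.univ (fun t :
        {s : Fin (m + 1) →₀ ℕ // s.degree ≤ w (Fin.last m)} =>
      coeff (t : Fin (m + 1) →₀ ℕ) (Φ (Fin.last m)) * ∏ j, x j ^ (t : Fin (m + 1) →₀ ℕ) j)
      (Finset.mem_univ t₀),
      ← Finset.add_sum_erase (M := Ω) Finset.univ (fun t :
        {s : Fin (m + 1) →₀ ℕ // s.degree ≤ w (Fin.last m)} =>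
      ((a ⟨Fin.last m, t⟩ : ball Ω) : Ω) * ∏ j, x j ^ (t : Fin (m + 1) →₀ ℕ) j)
      (Finset.mem_univ t₀)]
    have h2 : ∀ t ∈ univ.erase t₀,
        coeff (t : Fin (m + 1) →₀ ℕ) (Φ (Fin.last m)) * ∏ j, x j ^ (t : Fin (m + 1) →₀ ℕ) j =
        ((a ⟨Fin.last m, t⟩ : ball Ω) : Ω) * ∏ j, x j ^ (t : Fin (m + 1) →₀ ℕ) j := by
      intro t ht
      rw [← ha2 ⟨Fin.last m, t⟩]
      intro h3
      refine (Finset.mem_erase.1 ht).1 ?_
      have h4 := (Sigma.ext_iff.1 h3).2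
      exact eq_of_heq h4
    rw [Finset.sum_congr rfl h2]
    have h3 : ∏ j, x j ^ (t₀ : Fin (m + 1) →₀ ℕ) j = x (Fin.last m) ^ w (Fin.last m) := by
      change ∏ j, x j ^ (Finsupp.single (Fin.last m) (w (Fin.last m)) : Fin (m + 1) →₀ ℕ) j = _
      rw [Finset.prod_eq_single (Fin.last m)]
      · simp
      · intro b _ hb
        rw [Finsupp.single_apply, if_neg (Ne.symm hb), pow_zero]
      · simp
    have h4 : coeff (t₀ : Fin (m + 1) →₀ ℕ) (Φ (Fin.last m)) =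
        coeff (Finsupp.single (Fin.last m) (w (Fin.last m))) (Φ (Fin.last m)) := rfl
    have h5 : a ⟨Fin.last m, t₀⟩ = a (vsp m w) := rfl
    simp only [h3, h4, h5]
    rw [hs]
    ring
  · rw [if_neg hi, add_zero]
    refine Finset.sum_congr rfl fun t _ => ?_
    rw [← ha2 ⟨i, t⟩]
    intro h3
    exact hi (congrArg Sigma.fst h3)

/-- The decomposition as a hypothesis. -/
def Dec (Φ : Fin (m + 1) → MvPolynomial (Fin (m + 1)) Ω) (a : VIdx m w → ball Ω) (s : Ω) : Prop :=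
  ∀ x i, pm Φ x i = (∑ t : {s : Fin (m + 1) →₀ ℕ // s.degree ≤ w i},
    ((a ⟨i, t⟩ : ball Ω) : Ω) * ∏ j, x j ^ (t : Fin (m + 1) →₀ ℕ) j) +
      if i = Fin.last m then s * x (Fin.last m) ^ w (Fin.last m) else 0

/-- One step at an integral point whose reduction is in the hyperplane. -/
theorem stepA (hρ : ∀ x : ball Ω, ρ x = 0 ↔ ‖(x : Ω)‖ < 1)
    {Φ : Fin (m + 1) → MvPolynomial (Fin (m + 1)) Ω}
    {c : VIdx m w → κ} {a : VIdx m w → ball Ω} {s : Ω} {P : ℝ}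
    (ha : ∀ k, ρ (a k) = c k) (hs : ‖s‖ = P) (hΦ : Dec Φ a s)
    (y : Fin (m + 1) → ball Ω) (hy : P * ‖(y (Fin.last m) : Ω)‖ ^ w (Fin.last m) < 1) :
    ∃ y' : Fin (m + 1) → ball Ω, pm Φ (inc y) = inc y' ∧ red ρ y' = pm (vP c) (red ρ y) := by
  have hz : ‖s * (y (Fin.last m) : Ω) ^ w (Fin.last m)‖ < 1 := by
    rw [norm_mul, norm_pow, hs]
    exact hy
  set z : ball Ω := ⟨s * (y (Fin.last m) : Ω) ^ w (Fin.last m), hz.le⟩ with hzdef
  have hz2 : ρ z = 0 := (hρ z).2 hz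
  refine ⟨fun i => (∑ t : {s : Fin (m + 1) →₀ ℕ // s.degree ≤ w i},
    a ⟨i, t⟩ * ∏ j, y j ^ (t : Fin (m + 1) →₀ ℕ) j) + if i = Fin.last m then z else 0, ?_, ?_⟩
  · funext i
    rw [hΦ]
    simp only [inc]
    rw [Subring.coe_add]
    congr 1
    · push_cast
      rfl
    · split_ifs
      · rfl
      · simp
  · funext i
    simp only [red]
    rw [map_add, map_sum, pm, eval_vP]
    have h1 : ρ (if i = Fin.last m then z else 0) = 0 := by
      split_ifs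
      · exact hz2
      · exact map_zero _
    rw [h1, add_zero]
    refine Finset.sum_congr rfl fun t _ => ?_
    rw [map_mul, ha, map_prod]
    simp only [map_pow, red]

/-- The integral part at an integral point. -/
theorem int_part (a : VIdx m w → ball Ω)
    (lam : Ω) (hlam : 1 ≤ ‖lam‖) (y : Fin (m + 1) → ball Ω) (i : Fin (m + 1)) :
    ‖∑ t : {s : Fin (m + 1) →₀ ℕ // s.degree ≤ w i},
      ((a ⟨i, t⟩ : ball Ω) : Ω) * ∏ j, (lam * inc y j) ^ (t : Fin (m + 1) →₀ ℕ) j‖ ≤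
        ‖lam‖ ^ w i := by
  refine IsUltrametricDist.norm_sum_le_of_forall_le_of_nonneg (by positivity) fun t _ => ?_
  rw [norm_mul, norm_prod]
  have h1 : ∏ j, ‖(lam * inc y j) ^ (t : Fin (m + 1) →₀ ℕ) j‖ ≤ ‖lam‖ ^ w i := by
    calc ∏ j, ‖(lam * inc y j) ^ (t : Fin (m + 1) →₀ ℕ) j‖
        ≤ ∏ j, ‖lam‖ ^ (t : Fin (m + 1) →₀ ℕ) j := by
          refine Finset.prod_le_prod (fun j _ => norm_nonneg _) fun j _ => ?_
          rw [norm_pow, norm_mul]
          refine pow_le_pow_left₀ (by positivity) ?_ _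
          exact mul_le_of_le_one_right (norm_nonneg _) (ball_norm _)
      _ = ‖lam‖ ^ (t : Fin (m + 1) →₀ ℕ).degree := by
          rw [Finset.prod_pow_eq_pow_sum, Finsupp.degree_eq_sum]
      _ ≤ ‖lam‖ ^ w i := pow_le_pow_right₀ hlam t.2
  calc ‖((a ⟨i, t⟩ : ball Ω) : Ω)‖ * ∏ j, ‖(lam * inc y j) ^ (t : Fin (m + 1) →₀ ℕ) j‖
      ≤ 1 * ‖lam‖ ^ w i :=
        mul_le_mul (ball_norm _) h1 (Finset.prod_nonneg fun j _ => norm_nonneg _) zero_le_one
    _ = ‖lam‖ ^ w i := one_mul _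

/-- The special term dominates. -/
theorem big_special {Φ : Fin (m + 1) → MvPolynomial (Fin (m + 1)) Ω}
    {a : VIdx m w → ball Ω} {s : Ω} {P : ℝ}
    (hlt : ∀ i, w i ≤ w (Fin.last m)) (hs : ‖s‖ = P) (hΦ : Dec Φ a s)
    (lam : Ω) (hlam : 1 ≤ ‖lam‖) (y : Fin (m + 1) → ball Ω)
    (hy : 1 < P * ‖(y (Fin.last m) : Ω)‖ ^ w (Fin.last m)) :
    WE (pm Φ (fun j => lam * inc y j)) := by
  set d := w (Fin.last m) with hd'
  have hL0 : 0 < ‖lam‖ := by linarith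
  have hLd : 0 < ‖lam‖ ^ d := pow_pos hL0 d
  have h1 := int_part (w := w) a lam hlam y
  have h2 : ‖s * (lam * inc y (Fin.last m)) ^ d‖ =
      ‖lam‖ ^ d * (P * ‖(y (Fin.last m) : Ω)‖ ^ d) := by
    rw [norm_mul, norm_pow, norm_mul, hs, mul_pow]
    simp only [inc]
    ring
  have h3 : ‖lam‖ ^ d < ‖lam‖ ^ d * (P * ‖(y (Fin.last m) : Ω)‖ ^ d) := by
    nlinarith
  have h4 : ‖pm Φ (fun j => lam * inc y j) (Fin.last m)‖ =
      ‖lam‖ ^ d * (P * ‖(y (Fin.last m) : Ω)‖ ^ d) := by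
    rw [hΦ, if_pos rfl]
    rw [IsUltrametricDist.norm_add_eq_max_of_norm_ne_norm, h2]
    · exact max_eq_right ((h1 (Fin.last m)).trans h3.le)
    · rw [h2]
      exact ((h1 (Fin.last m)).trans_lt h3).ne
  have h5 : 1 ≤ ‖lam‖ ^ d := one_le_pow₀ hlam
  refine ⟨by rw [h4]; linarith, fun i => ?_⟩
  rw [h4]
  by_cases hi : i = Fin.last m
  · rw [hi, h4]
  · rw [hΦ, if_neg hi, add_zero]
    refine (h1 i).trans (le_trans ?_ h3.le)
    exact pow_le_pow_right₀ hlam (hlt i)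

/-- One step from the weak escaping region. -/
theorem we_step {Φ : Fin (m + 1) → MvPolynomial (Fin (m + 1)) Ω}
    {a : VIdx m w → ball Ω} {s : Ω} {P : ℝ} (hP : 1 < P)
    (hlt : ∀ i, w i ≤ w (Fin.last m)) (hs : ‖s‖ = P) (hΦ : Dec Φ a s)
    {x : Fin (m + 1) → Ω} (hx : WE x) : GE P (pm Φ x) ∧ WE (pm Φ x) := by
  set d := w (Fin.last m) with hd'
  have h0 : x (Fin.last m) ≠ 0 := by
    intro h
    have := hx.1
    rw [h, norm_zero] at this
    linarith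
  have hL0 : 0 < ‖x (Fin.last m)‖ := norm_pos_iff.2 h0
  -- `x = lam • y`
  set y : Fin (m + 1) → ball Ω := fun i => ⟨x i / x (Fin.last m), by
    rw [mem_ball, norm_div]
    exact (div_le_one hL0).2 (hx.2 i)⟩ with hy
  have hxy : x = fun j => x (Fin.last m) * inc y j := by
    funext j
    simp only [hy, inc]
    field_simp
  have hyN : (y (Fin.last m) : Ω) = 1 := div_self h0
  have h1 := big_special hlt hs hΦ (x (Fin.last m)) hx.1.le y (by
    rw [hyN, norm_one, one_pow, mul_one]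
    exact hP)
  rw [← hxy] at h1
  refine ⟨⟨?_, h1.2⟩, h1⟩
  -- the norm of the last component
  have h2 := int_part (w := w) a (x (Fin.last m)) hx.1.le y (Fin.last m)
  have h3 : ‖s * x (Fin.last m) ^ d‖ = P * ‖x (Fin.last m)‖ ^ d := by
    rw [norm_mul, norm_pow, hs]
  have h4 : 1 ≤ ‖x (Fin.last m)‖ ^ d := one_le_pow₀ hx.1.le
  have h5 : ‖x (Fin.last m)‖ ^ d < P * ‖x (Fin.last m)‖ ^ d := by nlinarith
  have h6 : ‖pm Φ x (Fin.last m)‖ = P * ‖x (Fin.last m)‖ ^ d := by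
    rw [hΦ, if_pos rfl]
    have h7 : ∀ j, x j = x (Fin.last m) * inc y j := fun j => congrFun hxy j
    have h8 : ‖∑ t : {s : Fin (m + 1) →₀ ℕ // s.degree ≤ w (Fin.last m)},
        ((a ⟨Fin.last m, t⟩ : ball Ω) : Ω) * ∏ j, x j ^ (t : Fin (m + 1) →₀ ℕ) j‖ ≤
          ‖x (Fin.last m)‖ ^ d := by
      refine le_trans (le_of_eq ?_) h2
      congr 1
      refine Finset.sum_congr rfl fun t _ => ?_
      congr 1
      exact Finset.prod_congr rfl fun j _ => by rw [← h7 j]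
    rw [IsUltrametricDist.norm_add_eq_max_of_norm_ne_norm, h3]
    · exact max_eq_right (h8.trans h5.le)
    · rw [h3]
      exact (h8.trans_lt h5).ne
  rw [h6]
  nlinarith

omit [IsUltrametricDist Ω] in
theorem ge_we {P : ℝ} (hP : 1 < P) {x : Fin (m + 1) → Ω} (hx : GE P x) : WE x :=
  ⟨hP.trans_le hx.1, hx.2⟩

end Pool.Agent.Helper86.AP
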